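import Pool.Agent.U29.DZ.Stm

set_option autoImplicit false

/-!
# Project DZ, package BCx: Borel-Cantelli over the shells
-/

namespace Pool.Agent.U978.DZ

open Finset MeasureTheory Filter Pool.Agent.U762.RP Pool.Agent.U29.DZ

lemma Qx_mono (d : ℕ) (m r : ℤ → ℤ) (w : ℤ → ℤ → ℝ) (hw : ∀ x u, 0 ≤ w x u) (B : ℕ) (M Y : ℝ)
    {F G : ℤ → ℝ} (h : ∀ y, F y ≤ G y) (x : ℤ) :
    Qx d m r w B M Y F x ≤ Qx d m r w B M Y G x := by
  unfold Qx
  split_ifs
  · exact Finset.sum_le_sum (fun u _ => mul_le_mul_of_nonneg_left (h _) (hw x u))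
  · exact le_rfl

lemma Qx_mul (d : ℕ) (m r : ℤ → ℤ) (w : ℤ → ℤ → ℝ) (B : ℕ) (M Y c : ℝ) (F : ℤ → ℝ) :
    Qx d m r w B M Y (fun y => c * F y) = fun x => c * Qx d m r w B M Y F x := by
  funext x
  unfold Qx
  split_ifs
  · rw [Finset.mul_sum]
    exact Finset.sum_congr rfl (fun u _ => by ring)
  · simp

lemma Qx_it_mono (d : ℕ) (m r : ℤ → ℤ) (w : ℤ → ℤ → ℝ) (hw : ∀ x u, 0 ≤ w x u) (B : ℕ) (M Y : ℝ)
    {F G : ℤ → ℝ} (h : ∀ y, F y ≤ G y) (L : ℕ) :
    ∀ x, (Qx d m r w B M Y)^[L] F x ≤ (Qx d m r w B M Y)^[L] G x := by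
  induction L with
  | zero => simpa using h
  | succ L ih =>
    intro x
    rw [Function.iterate_succ_apply', Function.iterate_succ_apply']
    exact Qx_mono d m r w hw B M Y ih x

lemma Qx_it_mul (d : ℕ) (m r : ℤ → ℤ) (w : ℤ → ℤ → ℝ) (B : ℕ) (M Y c : ℝ) (F : ℤ → ℝ) (L : ℕ) :
    (Qx d m r w B M Y)^[L] (fun y => c * F y) = fun x => c * (Qx d m r w B M Y)^[L] F x := by
  induction L with
  | zero => rfl
  | succ L ih =>
    rw [Function.iterate_succ_apply', ih, Qx_mul, Function.iterate_succ_apply']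

theorem t_BCx : S_BCx := by
  intro hPRB hIDX d m r X C lam θ N μ _ hXm hXt hX0 hpar hN hsupp hdec hsum
  have hXpos : ∀ j, 1 ≤ X j := fun j => hX0.trans (hXm.monotone (Nat.zero_le j))
  have hNm : Monotone N := monotone_nat_of_le_succ hN
  have hw0 : ∀ x u : ℤ, 0 ≤ (fun x u => (μ x).real {u} : ℤ → ℤ → ℝ) x u :=
    fun x u => measureReal_nonneg
  -- the laws in the window
  have hnull : ∀ j : ℕ, ∀ y : ℤ, X j ≤ |(y : ℝ)| → |(y : ℝ)| < X (j + 2) →
      μ y {u : ℤ | (N (j + 1) : ℤ) < |u|} = 0 := by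
    intro j y h1 h2
    have h3 : X 0 ≤ |(y : ℝ)| := (hXm.monotone (Nat.zero_le j)).trans h1
    have h4 : idx X y ≤ j + 1 := (hIDX X hXm hXt y).2.2.2 (j + 1) h2
    have h5 : (N (idx X y) : ℤ) ≤ (N (j + 1) : ℤ) := by exact_mod_cast hNm h4
    refine measure_mono_null ?_ (hsupp y h3)
    intro u hu
    exact lt_of_le_of_lt h5 hu
  apply ae_finite_setOfPred_mem (s := fun x : ℤ => {ω | X 0 ≤ |(x : ℝ)| ∧ Bad d m r lam X x ω})
  refine ne_top_of_le_ne_top hsum (ENNReal.tsum_le_tsum fun x => ?_)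
  by_cases hx : X 0 ≤ |(x : ℝ)|
  · rw [if_pos hx]
    obtain ⟨j, hj⟩ : ∃ j, j = idx X x := ⟨_, rfl⟩
    rw [← hj]
    have hxj : X j ≤ |(x : ℝ)| := by rw [hj]; exact (hIDX X hXm hXt x).1 hx
    obtain ⟨hC, hl0, hl1, hθ, -⟩ := hpar j
    have hVx : V (X j) (θ j) x = |(x : ℝ)| ^ θ j := by
      unfold V
      rw [if_neg (not_lt.2 hxj)]
    have hY : X j ≤ X (j + 2) := hXm.monotone (by omega)
    have e1 : (Measure.infinitePi μ)
        {ω | Pth d m r (X j) (X (j + 2)) (Lt lam j x) {y | X j ≤ |(y : ℝ)|} x ω} ≤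
        ENNReal.ofReal (C j * lam j ^ Lt lam j x * |(x : ℝ)| ^ θ j) := by
      refine (hPRB d m r μ (N (j + 1)) (X j) (X (j + 2)) (hnull j) (Lt lam j x) _ x).trans ?_
      apply ENNReal.ofReal_le_ofReal
      rw [← hVx]
      refine le_trans (Qx_it_mono d m r _ hw0 _ _ _ ?_ _ x) (hdec j (Lt lam j x) x)
      intro y
      unfold V
      by_cases hy : |(y : ℝ)| < X j
      · rw [if_pos hy, Set.indicator_of_notMem]
        exact not_le.2 hy
      · rw [if_neg hy]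
        push Not at hy
        rw [Set.indicator_of_mem (show y ∈ {y : ℤ | X j ≤ |(y : ℝ)|} from hy)]
        exact Real.one_le_rpow ((hXpos j).trans hy) hθ.le
    have e2 : ∀ L : ℕ, (Measure.infinitePi μ)
        {ω | Pth d m r (X j) (X (j + 2)) L {y | X (j + 2) ≤ |(y : ℝ)|} x ω} ≤
        ENNReal.ofReal (C j * lam j ^ L * |(x : ℝ)| ^ θ j * X (j + 2) ^ (-θ j)) := by
      intro L
      refine (hPRB d m r μ (N (j + 1)) (X j) (X (j + 2)) (hnull j) L _ x).trans ?_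
      apply ENNReal.ofReal_le_ofReal
      have hXp : 0 < X (j + 2) := lt_of_lt_of_le one_pos (hXpos _)
      have hcp : 0 < X (j + 2) ^ (-θ j) := Real.rpow_pos_of_pos hXp _
      have h1 : ∀ y : ℤ, ({y : ℤ | X (j + 2) ≤ |(y : ℝ)|}.indicator (fun _ => (1 : ℝ))) y ≤
          X (j + 2) ^ (-θ j) * V (X j) (θ j) y := by
        intro y
        unfold V
        by_cases hy : |(y : ℝ)| < X (j + 2)
        · rw [Set.indicator_of_notMem (show y ∉ {y : ℤ | X (j + 2) ≤ |(y : ℝ)|} from not_le.2 hy)]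
          apply mul_nonneg hcp.le
          split_ifs
          · exact le_rfl
          · positivity
        · push Not at hy
          rw [Set.indicator_of_mem (show y ∈ {y : ℤ | X (j + 2) ≤ |(y : ℝ)|} from hy),
            if_neg (not_lt.2 (hY.trans hy))]
          have h2 : X (j + 2) ^ θ j ≤ |(y : ℝ)| ^ θ j :=
            Real.rpow_le_rpow hXp.le hy hθ.le
          calc (1 : ℝ) = X (j + 2) ^ (-θ j) * X (j + 2) ^ θ j := by
                rw [← Real.rpow_add hXp]; simp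
            _ ≤ X (j + 2) ^ (-θ j) * |(y : ℝ)| ^ θ j := mul_le_mul_of_nonneg_left h2 hcp.le
      have h3 := Qx_it_mono d m r _ hw0 (N (j + 1)) (X j) (X (j + 2)) h1 L x
      rw [Qx_it_mul] at h3
      refine h3.trans ?_
      have h4 := mul_le_mul_of_nonneg_left (hdec j L x) hcp.le
      refine h4.trans (le_of_eq ?_)
      rw [hVx]
      ring
    calc (Measure.infinitePi μ) {ω | X 0 ≤ |(x : ℝ)| ∧ Bad d m r lam X x ω}
        ≤ (Measure.infinitePi μ)
          ({ω | Pth d m r (X j) (X (j + 2)) (Lt lam j x) {y | X j ≤ |(y : ℝ)|} x ω} ∪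
            ⋃ L : ℕ, {ω | Pth d m r (X j) (X (j + 2)) L {y | X (j + 2) ≤ |(y : ℝ)|} x ω}) := by
          apply measure_mono
          intro ω hω
          obtain ⟨-, hb⟩ := hω
          unfold Bad at hb
          rw [← hj] at hb
          rcases hb with h | ⟨L, h⟩
          · exact Or.inl h
          · exact Or.inr (Set.mem_iUnion.2 ⟨L, h⟩)
      _ ≤ _ := measure_union_le _ _
      _ ≤ _ := add_le_add e1 ((measure_iUnion_le _).trans (ENNReal.tsum_le_tsum e2))
  · rw [if_neg hx]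
    have : {ω | X 0 ≤ |(x : ℝ)| ∧ Bad d m r lam X x ω} = ∅ := by
      ext ω
      simp [hx]
    rw [this]
    simp

end Pool.Agent.U978.DZ
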